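import Pool.Agent.helper74.Probe.M4

/-! M6: Rellich's theorem (assuming M3, M5). -/

open MeasureTheory Metric Set Filter Topology
open scoped ContDiff ENNReal

namespace Pool.Agent.helper74.Probe

open Pool.Agent.helper27.Probe

/-- statement of interior compactness (M5) -/
def InteriorCompact : Prop := ∀ {U K : Set E} (_ : IsOpen U) (_ : IsCompact K) (_ : K ⊆ U)
    {v : ℕ → E → ℂ} {g : ℕ → Fin 3 → E → ℂ} (_ : ∀ n, H1 U (v n) (g n)) {C : ℝ}
    (_ : ∀ n, en U (v n) (g n) ≤ C) {ε : ℝ} (_ : 0 < ε),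
    ∃ φ : ℕ → ℕ, StrictMono φ ∧ ∀ m n, ∫ y in K, ‖v (φ m) y - v (φ n) y‖ ^ 2 ≤ ε

theorem sq_sub_le {U : Set E} {a b : E → ℂ} (ha : MemLp a 2 (volume.restrict U))
    (hb : MemLp b 2 (volume.restrict U)) :
    helper27.Probe.sq U (fun y => a y - b y) ≤ 2 * helper27.Probe.sq U a + 2 * helper27.Probe.sq U b := by
  unfold helper27.Probe.sq
  rw [← integral_const_mul, ← integral_const_mul, ← integral_add]
  · apply integral_mono
    · exact (ha.sub hb).integrable_norm_pow (by norm_num)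
    · exact ((ha.integrable_norm_pow (by norm_num)).const_mul 2).add
        ((hb.integrable_norm_pow (by norm_num)).const_mul 2)
    · intro y
      have h1 := norm_sub_le (a y) (b y)
      simp only
      nlinarith [norm_nonneg (a y - b y), norm_nonneg (a y), norm_nonneg (b y),
        sq_nonneg (‖a y‖ - ‖b y‖)]
  · exact (ha.integrable_norm_pow (by norm_num)).const_mul 2
  · exact (hb.integrable_norm_pow (by norm_num)).const_mul 2

theorem en_sub_le {U : Set E} {v w : E → ℂ} {g h : Fin 3 → E → ℂ} (hv : H1 U v g)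
    (hw : H1 U w h) : en U (fun y => v y - w y) (fun i y => g i y - h i y) ≤
      2 * en U v g + 2 * en U w h := by
  unfold en
  have h1 := sq_sub_le hv.memLp hw.memLp
  have h2 : ∑ i, helper27.Probe.sq U (fun y => g i y - h i y) ≤
      ∑ i, (2 * helper27.Probe.sq U (g i) + 2 * helper27.Probe.sq U (h i)) :=
    Finset.sum_le_sum (fun i _ => sq_sub_le (hv.memLp_grad i) (hw.memLp_grad i))
  rw [Finset.sum_add_distrib, ← Finset.mul_sum, ← Finset.mul_sum] at h2
  linarith

theorem exists_close (H3 : TransIneq) (H5 : InteriorCompact) {U : Set E} (hU : IsOpen U)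
    (hb : Bornology.IsBounded U) (h : InnerShift U)
    {v : ℕ → E → ℂ} {g : ℕ → Fin 3 → E → ℂ} (hv : ∀ n, H1 U (v n) (g n)) {C : ℝ}
    (hC : ∀ n, en U (v n) (g n) ≤ C) {η : ℝ} (hη : 0 < η) :
    ∃ φ : ℕ → ℕ, StrictMono φ ∧ ∀ m n, helper27.Probe.sq U (fun y => v (φ m) y - v (φ n) y) ≤ η := by
  have hC0 : 0 ≤ C := (en_nonneg _ _ _).trans (hC 0)
  obtain ⟨K, hK, hKU, hKl⟩ := layer' H3 hU hb h (ε := η / (2 * (4 * C + 1))) (by positivity)
  obtain ⟨φ, hφ, hφl⟩ := H5 hU hK hKU hv hC (ε := η / 2) (by positivity)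
  refine ⟨φ, hφ, fun m n => ?_⟩
  have hd := (hv (φ m)).sub (hv (φ n))
  have h1 := hKl _ _ hd
  have h2 := hφl m n
  have h3 := en_sub_le (hv (φ m)) (hv (φ n))
  have h4 : helper27.Probe.sq U (fun y => v (φ m) y - v (φ n) y) =
      (∫ y in K, ‖v (φ m) y - v (φ n) y‖ ^ 2) + ∫ y in U \ K, ‖v (φ m) y - v (φ n) y‖ ^ 2 := by
    unfold helper27.Probe.sq
    have hint : IntegrableOn (fun y => ‖v (φ m) y - v (φ n) y‖ ^ 2) U volume :=
      hd.memLp.integrable_norm_pow (by norm_num)
    have := integral_inter_add_sdiff (s := U) (t := K) hK.measurableSet hint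
    rw [inter_eq_self_of_subset_right hKU] at this
    exact this.symm
  rw [h4]
  have h5 : η / (2 * (4 * C + 1)) * (2 * en U (v (φ m)) (g (φ m)) +
      2 * en U (v (φ n)) (g (φ n))) ≤ η / 2 := by
    have h6 : 2 * en U (v (φ m)) (g (φ m)) + 2 * en U (v (φ n)) (g (φ n)) ≤ 4 * C := by
      linarith [hC (φ m), hC (φ n)]
    calc η / (2 * (4 * C + 1)) * (2 * en U (v (φ m)) (g (φ m)) + 2 * en U (v (φ n)) (g (φ n)))
        ≤ η / (2 * (4 * C + 1)) * (4 * C) := by gcongr
      _ ≤ η / 2 := by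
        rw [div_mul_eq_mul_div, div_le_div_iff₀ (by positivity) (by positivity)]
        nlinarith
  have h7 : η / (2 * (4 * C + 1)) * en U (fun y => v (φ m) y - v (φ n) y)
      (fun i y => g (φ m) i y - g (φ n) i y) ≤ η / (2 * (4 * C + 1)) *
      (2 * en U (v (φ m)) (g (φ m)) + 2 * en U (v (φ n)) (g (φ n))) := by gcongr
  linarith

theorem rellich' (H3 : TransIneq) (H5 : InteriorCompact) {U : Set E} (hU : IsOpen U)
    (hb : Bornology.IsBounded U) (h : InnerShift U)
    {v : ℕ → E → ℂ} {g : ℕ → Fin 3 → E → ℂ} (hv : ∀ n, H1 U (v n) (g n)) {C : ℝ}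
    (hC : ∀ n, en U (v n) (g n) ≤ C) :
    ∃ (φ : ℕ → ℕ) (f : E → ℂ), StrictMono φ ∧ MemLp f 2 (volume.restrict U) ∧
      Tendsto (fun n => ∫ y in U, ‖v (φ n) y - f y‖ ^ 2) atTop (𝓝 0) := by
  set F : ℕ → Lp ℂ 2 (volume.restrict U) := fun n => (hv n).memLp.toLp (v n) with hF
  have hdist : ∀ m n, dist (F m) (F n) ^ 2 = helper27.Probe.sq U (fun y => v m y - v n y) := by
    intro m n
    rw [sq_eq ((hv m).sub (hv n)).memLp.1, dist_edist, hF]
    simp only
    rw [Lp.edist_toLp_toLp]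
    rfl
  have htb : TotallyBounded (range F) := by
    intro V V_in
    obtain ⟨ε, hε, hεV⟩ := Metric.mem_uniformity_dist.1 V_in
    by_contra hcon
    push Not at hcon
    obtain ⟨u, u_in, hu⟩ : ∃ u : ℕ → Lp ℂ 2 (volume.restrict U),
        (∀ n, u n ∈ range F) ∧ ∀ n m, m < n → u m ∉ UniformSpace.ball (u n) V := by
      simp only [not_subset, mem_iUnion₂, not_exists, exists_prop] at hcon
      simpa only [forall_and, forall_mem_image, not_and] using! seq_of_forall_finite_exists hcon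
    choose k hk using u_in
    obtain ⟨φ, hφ, hφl⟩ := exists_close H3 H5 hU hb h (v := fun n => v (k n))
      (g := fun n => g (k n)) (fun n => hv _) (fun n => hC _) (η := (ε / 2) ^ 2) (by positivity)
    apply hu (φ 1) (φ 0) (hφ Nat.zero_lt_one)
    have h1 := hφl 1 0
    rw [← hdist] at h1
    have h2 : dist (F (k (φ 1))) (F (k (φ 0))) ≤ ε / 2 :=
      (abs_le_of_sq_le_sq' h1 (by positivity)).2
    apply hεV
    rw [← hk, ← hk]
    linarith
  have hcomp : IsCompact (closure (range F)) :=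
    htb.closure.isCompact_of_isClosed isClosed_closure
  obtain ⟨f, -, φ, hφ, hlim⟩ := hcomp.tendsto_subseq (x := F)
    (fun n => subset_closure (mem_range_self n))
  refine ⟨φ, f, hφ, Lp.memLp f, ?_⟩
  have h1 : Tendsto (fun n => dist (F (φ n)) f ^ 2) atTop (𝓝 0) := by
    have := (tendsto_iff_dist_tendsto_zero.1 hlim).pow 2
    simpa using this
  refine h1.congr (fun n => ?_)
  have h2 : dist (F (φ n)) f = (eLpNorm (fun y => v (φ n) y - f y) 2
      (volume.restrict U)).toReal := by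
    rw [dist_edist, hF]
    simp only
    conv_lhs => rw [← Lp.toLp_coeFn f (Lp.memLp f)]
    rw [Lp.edist_toLp_toLp]
    rfl
  have h3 : AEStronglyMeasurable (fun y => v (φ n) y - f y) (volume.restrict U) :=
    ((hv (φ n)).memLp.sub (Lp.memLp f)).1
  rw [h2, ← sq_eq h3]
  rfl

end Pool.Agent.helper74.Probe
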