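import Pool.Agent.helper27.Probe.Basic

/-! M4: boundary layers (assuming the translation inequality, M3). -/

open MeasureTheory Metric Set Filter Topology
open scoped ContDiff ENNReal

namespace Pool.Agent.helper74.Probe

open Pool.Agent.helper27.Probe

/-- statement of the translation inequality (M3) -/
def TransIneq : Prop := ∀ {U : Set E} (_ : IsOpen U) {v : E → ℂ} {g : Fin 3 → E → ℂ} (_ : H1 U v g)
    {A : Set E} (_ : MeasurableSet A) (a : E) (_ : ∀ y ∈ A, ∀ t ∈ Icc (0 : ℝ) 1, y + t • a ∈ U),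
    MemLp (fun y => v (y + a) - v y) 2 (volume.restrict A) ∧
    ∫ y in A, ‖v (y + a) - v y‖ ^ 2 ≤ ‖a‖ ^ 2 * ∑ i, sq U (g i)

theorem ofReal_int {U : Set E} {f : E → ℂ} (hf : MemLp f 2 (volume.restrict U)) :
    ∫⁻ y in U, ‖f y‖ₑ ^ 2 = ENNReal.ofReal (∫ y in U, ‖f y‖ ^ 2) := by
  rw [ofReal_integral_eq_lintegral_ofReal]
  · apply lintegral_congr
    intro y
    rw [← ofReal_norm, ENNReal.ofReal_pow (norm_nonneg _)]
  · exact hf.integrable_norm_pow (by norm_num)
  · exact ae_of_all _ fun _ => by positivity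

theorem H1.congr {U : Set E} {v w : E → ℂ} {g : Fin 3 → E → ℂ} (h : H1 U v g)
    (hvw : v =ᵐ[volume.restrict U] w) : H1 U w g where
  memLp := h.memLp.ae_eq hvw
  memLp_grad := h.memLp_grad
  weak φ hφ i := by
    rw [← h.weak φ hφ i]
    apply integral_congr_ae
    filter_upwards [hvw] with y hy
    rw [hy]

theorem enorm_sq_le (a b : ℂ) : ‖b‖ₑ ^ 2 ≤ 2 * ‖a - b‖ₑ ^ 2 + 2 * ‖a‖ₑ ^ 2 := by
  have h : ‖b‖ ^ 2 ≤ 2 * ‖a - b‖ ^ 2 + 2 * ‖a‖ ^ 2 := by
    have h1 : ‖b‖ ≤ ‖a - b‖ + ‖a‖ := by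
      have := norm_sub_le a (a - b)
      simpa [add_comm] using this
    nlinarith [norm_nonneg b, norm_nonneg a, norm_nonneg (a - b), sq_nonneg (‖a - b‖ - ‖a‖)]
  have h2 := ENNReal.ofReal_le_ofReal h
  rw [ENNReal.ofReal_add (by positivity) (by positivity), ENNReal.ofReal_mul (by norm_num),
    ENNReal.ofReal_mul (by norm_num), ENNReal.ofReal_pow (norm_nonneg _),
    ENNReal.ofReal_pow (norm_nonneg _), ENNReal.ofReal_pow (norm_nonneg _),
    ofReal_norm, ofReal_norm, ofReal_norm] at h2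
  simpa using h2

/-- one ball, strongly measurable functions -/
theorem layer_one_meas (H3 : TransIneq) {U : Set E} (hU : IsOpen U) {p a : E} {r c δ : ℝ}
    (hc : 0 < c) (ha : ‖a‖ = 1)
    (hs : ∀ y ∈ ball p r ∩ U, ∀ s ∈ Ioo (0 : ℝ) δ, ball (y + s • a) (c * s) ⊆ U)
    {s₀ ρ ε : ℝ} (hs₀ : 0 < s₀) (hs₀δ : s₀ ≤ δ) (hε : 0 < ε) (hs₀ε : 2 * s₀ ^ 2 ≤ ε)
    (hρ : 2 * (ρ / c) ≤ ε * s₀) (hρ0 : 0 < ρ)
    {v : E → ℂ} {g : Fin 3 → E → ℂ} (hv : H1 U v g) (hm : Measurable v) :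
    ∫⁻ y in U ∩ thickening ρ Uᶜ ∩ ball p r, ‖v y‖ₑ ^ 2 ≤ ENNReal.ofReal (ε * en U v g) := by
  set A : Set E := U ∩ thickening ρ Uᶜ ∩ ball p r with hA
  have hAo : IsOpen A := (hU.inter isOpen_thickening).inter isOpen_ball
  have hAm : MeasurableSet A := hAo.measurableSet
  have hAU : A ⊆ U := fun y hy => hy.1.1
  set G : ℝ := ∑ i, sq U (g i) with hG
  have hG0 : 0 ≤ G := Finset.sum_nonneg (fun _ _ => sq_nonneg' _ _)
  have hmem : ∀ y ∈ A, ∀ s ∈ Ioo (0 : ℝ) s₀, y + s • a ∈ U := by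
    intro y hy s hs'
    exact hs y ⟨hy.2, hy.1.1⟩ s ⟨hs'.1, hs'.2.trans_le hs₀δ⟩
      (mem_ball_self (mul_pos hc hs'.1))
  -- pointwise in `s`
  have h1 : ∀ s ∈ Ioo (0 : ℝ) s₀, ∫⁻ y in A, ‖v y‖ₑ ^ 2 ≤
      ENNReal.ofReal (ε * G) + 2 * ∫⁻ y in A, ‖v (y + s • a)‖ₑ ^ 2 := by
    intro s hs'
    have hseg : ∀ y ∈ A, ∀ t ∈ Icc (0 : ℝ) 1, y + t • (s • a) ∈ U := by
      intro y hy t ht
      rcases ht.1.eq_or_lt with h0 | h0
      · rw [← h0, zero_smul, add_zero]
        exact hAU hy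
      · rw [smul_smul]
        refine hmem y hy (t * s) ⟨mul_pos h0 hs'.1, ?_⟩
        calc t * s ≤ 1 * s := by gcongr; exact hs'.1.le; exact ht.2
          _ < s₀ := by rw [one_mul]; exact hs'.2
    obtain ⟨hL, hI⟩ := H3 hU hv hAm (s • a) hseg
    have h2 : ∫⁻ y in A, ‖v (y + s • a) - v y‖ₑ ^ 2 ≤ ENNReal.ofReal (s₀ ^ 2 * G) := by
      rw [ofReal_int hL]
      apply ENNReal.ofReal_le_ofReal
      refine hI.trans ?_
      rw [norm_smul, ha, mul_one, Real.norm_eq_abs, sq_abs]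
      have : s ^ 2 ≤ s₀ ^ 2 := by
        have := hs'.1
        have := hs'.2
        gcongr
      gcongr
    calc ∫⁻ y in A, ‖v y‖ₑ ^ 2
        ≤ ∫⁻ y in A, (2 * ‖v (y + s • a) - v y‖ₑ ^ 2 + 2 * ‖v (y + s • a)‖ₑ ^ 2) := by
          apply lintegral_mono
          intro y
          exact enorm_sq_le _ _
      _ = 2 * (∫⁻ y in A, ‖v (y + s • a) - v y‖ₑ ^ 2) +
            2 * ∫⁻ y in A, ‖v (y + s • a)‖ₑ ^ 2 := by
          have hms : Measurable (fun y => v (y + s • a)) := hm.comp (measurable_add_const _)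
          have hm1 : Measurable (fun y => ‖v (y + s • a)‖ₑ ^ 2) := (hms.enorm).pow_const 2
          have hm2 : Measurable (fun y => ‖v (y + s • a) - v y‖ₑ ^ 2) :=
            ((hms.sub hm).enorm).pow_const 2
          rw [lintegral_add_left (hm2.const_mul 2), lintegral_const_mul _ hm2,
            lintegral_const_mul _ hm1]
      _ ≤ 2 * ENNReal.ofReal (s₀ ^ 2 * G) + 2 * ∫⁻ y in A, ‖v (y + s • a)‖ₑ ^ 2 := by
          exact add_le_add (mul_le_mul_right h2 _) le_rfl
      _ ≤ ENNReal.ofReal (ε * G) + 2 * ∫⁻ y in A, ‖v (y + s • a)‖ₑ ^ 2 := by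
          gcongr
          have : (2 : ℝ≥0∞) = ENNReal.ofReal 2 := by simp
          rw [this, ← ENNReal.ofReal_mul (by norm_num)]
          apply ENNReal.ofReal_le_ofReal
          nlinarith
  -- the averaged term
  have h3 : ∫⁻ s in Ioo (0 : ℝ) s₀, ∫⁻ y in A, ‖v (y + s • a)‖ₑ ^ 2 ≤
      ENNReal.ofReal (ρ / c) * ∫⁻ z in U, ‖v z‖ₑ ^ 2 := by
    have hstep : ∀ s : ℝ, ∫⁻ y in A, ‖v (y + s • a)‖ₑ ^ 2 =
        ∫⁻ z, A.indicator (fun _ => (1 : ℝ≥0∞)) (z - s • a) * ‖v z‖ₑ ^ 2 := by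
      intro s
      have := lintegral_add_right_eq_self (μ := (volume : Measure E))
        (fun z => A.indicator (fun _ => (1 : ℝ≥0∞)) (z - s • a) * ‖v z‖ₑ ^ 2) (s • a)
      rw [← this, ← lintegral_indicator hAm]
      apply lintegral_congr
      intro y
      rw [add_sub_cancel_right]
      by_cases hy : y ∈ A
      · rw [indicator_of_mem hy, indicator_of_mem hy, one_mul]
      · rw [indicator_of_notMem hy, indicator_of_notMem hy, zero_mul]
    simp_rw [hstep]
    have hmI : Measurable (A.indicator (fun _ => (1 : ℝ≥0∞))) := measurable_const.indicator hAm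
    rw [lintegral_lintegral_swap]
    swap
    · apply Measurable.aemeasurable
      apply Measurable.mul
      · exact hmI.comp (measurable_snd.sub (measurable_fst.smul_const a))
      · exact ((hm.comp measurable_snd).enorm).pow_const 2
    have hT : ∀ z, ∫⁻ s in Ioo (0 : ℝ) s₀, A.indicator (fun _ => (1 : ℝ≥0∞)) (z - s • a) * ‖v z‖ₑ ^ 2 ≤
        U.indicator (fun z => ENNReal.ofReal (ρ / c) * ‖v z‖ₑ ^ 2) z := by
      intro z
      have hmz : Measurable (fun s : ℝ => A.indicator (fun _ => (1 : ℝ≥0∞)) (z - s • a)) :=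
        hmI.comp (measurable_const.sub (measurable_id.smul_const a))
      rw [lintegral_mul_const _ hmz]
      by_cases hz : z ∈ U
      · rw [indicator_of_mem hz]
        gcongr
        have hTm : MeasurableSet ({s : ℝ | z - s • a ∈ A}) := by
          apply (measurable_const.sub (measurable_id.smul_const a)) hAm
        have : (fun s : ℝ => A.indicator (fun _ => (1 : ℝ≥0∞)) (z - s • a)) =
            ({s : ℝ | z - s • a ∈ A}).indicator (fun _ => (1 : ℝ≥0∞)) := by
          funext s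
          by_cases h : z - s • a ∈ A
          · rw [indicator_of_mem h, indicator_of_mem (show s ∈ {s : ℝ | z - s • a ∈ A} from h)]
          · rw [indicator_of_notMem h, indicator_of_notMem
              (show s ∉ {s : ℝ | z - s • a ∈ A} from h)]
        rw [this, lintegral_indicator hTm, Measure.restrict_restrict hTm, setLIntegral_one]
        refine (Real.volume_le_diam _).trans ?_
        apply ediam_le
        have key : ∀ s₁ ∈ {s : ℝ | z - s • a ∈ A} ∩ Ioo 0 s₀,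
            ∀ s₂ ∈ {s : ℝ | z - s • a ∈ A} ∩ Ioo 0 s₀, s₁ < s₂ → s₂ - s₁ ≤ ρ / c := by
          intro s₁ h₁ s₂ h₂ hlt
          obtain ⟨w, hw, hwd⟩ := mem_thickening_iff.1 h₁.1.1.2
          have hb := hs (z - s₂ • a) ⟨h₂.1.2, h₂.1.1.1⟩ (s₂ - s₁)
            ⟨by linarith, by linarith [h₂.2.2, h₁.2.1]⟩
          have hcen : z - s₂ • a + (s₂ - s₁) • a = z - s₁ • a := by
            rw [sub_smul]; abel
          rw [hcen] at hb
          have hwn : w ∉ ball (z - s₁ • a) (c * (s₂ - s₁)) := fun hw' => hw (hb hw')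
          rw [mem_ball, not_lt, dist_comm] at hwn
          rw [le_div_iff₀ hc]
          linarith
        intro s₁ h₁ s₂ h₂
        rw [edist_dist, Real.dist_eq]
        apply ENNReal.ofReal_le_ofReal
        rcases lt_trichotomy s₁ s₂ with h | h | h
        · rw [abs_sub_comm, abs_of_pos (by linarith)]
          exact key _ h₁ _ h₂ h
        · rw [h, sub_self, abs_zero]
          positivity
        · rw [abs_of_pos (by linarith)]
          exact key _ h₂ _ h₁ h
      · rw [indicator_of_notMem hz, nonpos_iff_eq_zero]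
        have : ∫⁻ s in Ioo (0 : ℝ) s₀, A.indicator (fun _ => (1 : ℝ≥0∞)) (z - s • a) = 0 := by
          rw [setLIntegral_congr_fun (g := fun _ => 0) measurableSet_Ioo]
          · simp
          · intro s hs'
            apply indicator_of_notMem
            intro hA'
            apply hz
            have := hmem _ hA' s hs'
            rwa [sub_add_cancel] at this
        rw [this, zero_mul]
    refine (lintegral_mono hT).trans ?_
    rw [lintegral_indicator hU.measurableSet, lintegral_const_mul _ ((hm.enorm).pow_const 2)]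
  -- integrate over `s`
  have h4 : ENNReal.ofReal s₀ * ∫⁻ y in A, ‖v y‖ₑ ^ 2 ≤
      ENNReal.ofReal s₀ * ENNReal.ofReal (ε * en U v g) := by
    calc ENNReal.ofReal s₀ * ∫⁻ y in A, ‖v y‖ₑ ^ 2
        = ∫⁻ s in Ioo (0 : ℝ) s₀, ∫⁻ y in A, ‖v y‖ₑ ^ 2 := by
          rw [setLIntegral_const, Real.volume_Ioo, sub_zero, mul_comm]
      _ ≤ ∫⁻ s in Ioo (0 : ℝ) s₀, (ENNReal.ofReal (ε * G) +
            2 * ∫⁻ y in A, ‖v (y + s • a)‖ₑ ^ 2) := by
          apply setLIntegral_mono' measurableSet_Ioo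
          exact h1
      _ = ENNReal.ofReal s₀ * ENNReal.ofReal (ε * G) +
            2 * ∫⁻ s in Ioo (0 : ℝ) s₀, ∫⁻ y in A, ‖v (y + s • a)‖ₑ ^ 2 := by
          rw [lintegral_add_left measurable_const, setLIntegral_const, Real.volume_Ioo, sub_zero,
            mul_comm, lintegral_const_mul' _ _ (by norm_num)]
      _ ≤ ENNReal.ofReal s₀ * ENNReal.ofReal (ε * G) +
            2 * (ENNReal.ofReal (ρ / c) * ENNReal.ofReal (sq U v)) := by
          rw [show ENNReal.ofReal (sq U v) = ∫⁻ z in U, ‖v z‖ₑ ^ 2 from (ofReal_int hv.memLp).symm]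
          gcongr
      _ ≤ ENNReal.ofReal s₀ * ENNReal.ofReal (ε * en U v g) := by
          have h2 : (2 : ℝ≥0∞) = ENNReal.ofReal 2 := by simp
          have hρc : 0 ≤ ρ / c := by positivity
          rw [h2, ← ENNReal.ofReal_mul hρc, ← ENNReal.ofReal_mul (p := 2) (by norm_num),
            ← ENNReal.ofReal_mul hs₀.le, ← ENNReal.ofReal_mul hs₀.le, ← ENNReal.ofReal_add]
          · apply ENNReal.ofReal_le_ofReal
            have hen : en U v g = sq U v + G := rfl
            rw [hen]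
            have := mul_le_mul_of_nonneg_right hρ (sq_nonneg' U v)
            nlinarith
          · positivity
          · have := sq_nonneg' U v
            positivity
  exact (ENNReal.mul_le_mul_iff_right (by simpa using hs₀) ENNReal.ofReal_ne_top).1 h4

/-- one ball -/
theorem layer_one (H3 : TransIneq) {U : Set E} (hU : IsOpen U) {p a : E} {r c δ : ℝ}
    (hc : 0 < c) (hδ : 0 < δ) (ha : ‖a‖ = 1)
    (hs : ∀ y ∈ ball p r ∩ U, ∀ s ∈ Ioo (0 : ℝ) δ, ball (y + s • a) (c * s) ⊆ U)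
    {ε : ℝ} (hε : 0 < ε) : ∃ ρ > 0, ∀ v g, H1 U v g →
    ∫⁻ y in U ∩ thickening ρ Uᶜ ∩ ball p r, ‖v y‖ₑ ^ 2 ≤ ENNReal.ofReal (ε * en U v g) := by
  set s₀ : ℝ := min δ (min 1 (ε / 2)) with hs₀d
  have hs₀ : 0 < s₀ := by positivity
  have h1 : s₀ ≤ δ := min_le_left _ _
  have h2 : s₀ ≤ 1 := (min_le_right _ _).trans (min_le_left _ _)
  have h3 : s₀ ≤ ε / 2 := (min_le_right _ _).trans (min_le_right _ _)
  refine ⟨ε * s₀ * c / 2, by positivity, fun v g hv => ?_⟩
  set w : E → ℂ := hv.memLp.1.mk v with hw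
  have hwm : Measurable w := hv.memLp.1.stronglyMeasurable_mk.measurable
  have hvw : v =ᵐ[volume.restrict U] w := hv.memLp.1.ae_eq_mk
  have hH : H1 U w g := H1.congr hv hvw
  have hen : en U v g = en U w g := by
    unfold en
    congr 1
    unfold Pool.Agent.helper27.Probe.sq
    apply integral_congr_ae
    filter_upwards [hvw] with y hy
    rw [hy]
  have h4 := layer_one_meas H3 hU hc ha hs hs₀ h1 hε (by nlinarith)
    (ρ := ε * s₀ * c / 2) (by field_simp; rfl) (by positivity) hH hwm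
  rw [hen]
  refine le_trans (le_of_eq ?_) h4
  apply lintegral_congr_ae
  have hsub : U ∩ thickening (ε * s₀ * c / 2) Uᶜ ∩ ball p r ⊆ U := fun y hy => hy.1.1
  filter_upwards [ae_restrict_of_ae_restrict_of_subset hsub hvw] with y hy
  rw [hy]

theorem lintegral_biUnion_finset_le' {α ι : Type*} [MeasurableSpace α] {μ : Measure α}
    (t : Finset ι) (s : ι → Set α) (f : α → ℝ≥0∞) :
    ∫⁻ y in ⋃ p ∈ t, s p, f y ∂μ ≤ ∑ p ∈ t, ∫⁻ y in s p, f y ∂μ := by
  classical
  induction t using Finset.induction_on with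
  | empty => simp
  | insert q t hq ih =>
    rw [Finset.set_biUnion_insert, Finset.sum_insert hq]
    exact (lintegral_union_le _ _ _).trans (by gcongr)

theorem layer' (H3 : TransIneq) {U : Set E} (hU : IsOpen U) (hb : Bornology.IsBounded U)
    (h : InnerShift U) {ε : ℝ} (hε : 0 < ε) : ∃ K, IsCompact K ∧ K ⊆ U ∧ ∀ v g, H1 U v g →
      ∫ y in U \ K, ‖v y‖ ^ 2 ≤ ε * en U v g := by
  have hcl : IsCompact (closure U) := hb.isCompact_closure
  have hF : IsCompact (frontier U) := hcl.of_isClosed_subset isClosed_frontier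
    frontier_subset_closure
  choose! r hr a c hc δ hδ ha hs using h
  obtain ⟨t, htF, htc⟩ := hF.elim_nhds_subcover (fun p => ball p (r p))
    (fun p hp => ball_mem_nhds p (hr p hp))
  set ε' : ℝ := ε / (t.card + 1) with hε'
  have hε'0 : 0 < ε' := by positivity
  have hone : ∀ p ∈ t, ∃ ρ > 0, ∀ v g, H1 U v g →
      ∫⁻ y in U ∩ thickening ρ Uᶜ ∩ ball p (r p), ‖v y‖ₑ ^ 2 ≤ ENNReal.ofReal (ε' * en U v g) :=
    fun p hp => layer_one H3 hU (hc p (htF p hp)) (hδ p (htF p hp)) (ha p (htF p hp))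
      (hs p (htF p hp)) hε'0
  choose! ρ hρ hρe using hone
  obtain ⟨ρ₀, hρ₀, hρ₀le⟩ : ∃ ρ₀ > 0, ∀ p ∈ t, ρ₀ ≤ ρ p := by
    rcases t.eq_empty_or_nonempty with ht | ht
    · exact ⟨1, one_pos, by simp [ht]⟩
    · obtain ⟨q, hq, hqm⟩ := t.exists_min_image ρ ht
      exact ⟨ρ q, hρ q hq, hqm⟩
  set W : Set E := ⋃ p ∈ t, ball p (r p) with hW
  have hWo : IsOpen W := isOpen_biUnion (fun _ _ => isOpen_ball)
  refine ⟨closure U \ (thickening ρ₀ Uᶜ ∩ W), hcl.diff (isOpen_thickening.inter hWo), ?_, ?_⟩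
  · rintro y ⟨hy1, hy2⟩
    by_contra hyU
    apply hy2
    refine ⟨self_subset_thickening hρ₀ _ hyU, htc ?_⟩
    exact ⟨hy1, by rwa [hU.interior_eq]⟩
  · intro v g hv
    have hsub : U \ (closure U \ (thickening ρ₀ Uᶜ ∩ W)) ⊆
        ⋃ p ∈ t, (U ∩ thickening (ρ p) Uᶜ ∩ ball p (r p)) := by
      rintro y ⟨hyU, hy⟩
      have hy' : y ∈ thickening ρ₀ Uᶜ ∩ W := by
        by_contra h'
        exact hy ⟨subset_closure hyU, h'⟩
      obtain ⟨p, hp, hyp⟩ := mem_iUnion₂.1 hy'.2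
      exact mem_iUnion₂.2 ⟨p, hp, ⟨hyU, thickening_mono (hρ₀le p hp) _ hy'.1⟩, hyp⟩
    have hen := en_nonneg U v g
    have hl : ∫⁻ y in U \ (closure U \ (thickening ρ₀ Uᶜ ∩ W)), ‖v y‖ₑ ^ 2 ≤
        ENNReal.ofReal (ε * en U v g) := by
      calc ∫⁻ y in U \ (closure U \ (thickening ρ₀ Uᶜ ∩ W)), ‖v y‖ₑ ^ 2
          ≤ ∫⁻ y in ⋃ p ∈ t, (U ∩ thickening (ρ p) Uᶜ ∩ ball p (r p)), ‖v y‖ₑ ^ 2 :=
            lintegral_mono_set hsub
        _ ≤ ∑ p ∈ t, ∫⁻ y in (U ∩ thickening (ρ p) Uᶜ ∩ ball p (r p)), ‖v y‖ₑ ^ 2 := by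
            exact lintegral_biUnion_finset_le' t (fun p => U ∩ thickening (ρ p) Uᶜ ∩ ball p (r p)) _
        _ ≤ ∑ p ∈ t, ENNReal.ofReal (ε' * en U v g) :=
            Finset.sum_le_sum (fun p hp => hρe p hp v g hv)
        _ = ENNReal.ofReal (t.card * (ε' * en U v g)) := by
            rw [Finset.sum_const, nsmul_eq_mul, ENNReal.ofReal_mul (p := (t.card : ℝ))
              (by positivity), ENNReal.ofReal_natCast]
        _ ≤ ENNReal.ofReal (ε * en U v g) := by
            apply ENNReal.ofReal_le_ofReal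
            rw [← mul_assoc]
            gcongr
            rw [hε', mul_div_assoc', div_le_iff₀ (by positivity)]
            nlinarith
    have hmem : MemLp v 2 (volume.restrict (U \ (closure U \ (thickening ρ₀ Uᶜ ∩ W)))) :=
      hv.memLp.mono_measure (Measure.restrict_mono sdiff_subset le_rfl)
    rw [ofReal_int hmem] at hl
    exact (ENNReal.ofReal_le_ofReal_iff (by positivity)).1 hl

end Pool.Agent.helper74.Probe
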